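import Pool.Agent.H890.XY.Vil
import Pool.Agent.H890.XY.Z0m

set_option autoImplicit false

/-!
# Persistence of the BKT phase of the Villain model under bond dilution

For every `β` above the critical inverse temperature `betaKT` of the Villain model on `ℤ²` there is
`p0 ∈ (1/2,1)` such that for every `p ≥ p0` the averaged two-point function of the Villain model at
inverse temperature `β` on bond percolation of parameter `p` decays polynomially.

The definitions (`TT`, `vR`, `vil`, `ccos`, `box`, `edges`, `ext`, `unif`, `wt`, `tpf`, `kV`,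
`Jof`, `tpInf`, `avg`) are in `Pool/Agent/H890/XY/Stmts.lean`, `Poly1` and `betaKT` are in
`Pool/Agent/H890/XY/Vil.lean` and `bern` in `Pool/Agent/H890/Tilt/Key.lean`.
-/

namespace Pool.Agent.Results.MP_84bec1_pr.Persistence

open MeasureTheory Set Filter Topology
open Pool.Agent.H890.XY

theorem result :
    -- the finite-volume two-point functions converge to `tpInf`
    (∀ (β : ℝ) (ω : Ed → Bool) (x : Vx),
      Tendsto (fun L : ℕ => tpf kV (Jof β ω) (box L) (edges L) x) atTop (𝓝 (tpInf kV β ω x))) ∧
    -- persistence of polynomial decay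
    (∀ β : ℝ, betaKT < ENNReal.ofReal β →
      ∃ p0 : unitInterval, 1 / 2 < (p0 : ℝ) ∧ (p0 : ℝ) < 1 ∧
        ∀ p : unitInterval, p0 ≤ p → Poly1 (avg kV p β)) :=
  ⟨fun β ω x => Gen.tpf_tendsto goodV β ω x, fun β hβ => persistence z0m β hβ⟩

end Pool.Agent.Results.MP_84bec1_pr.Persistence
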